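import Pool.Agent.Lib.MP_f2fe2b_co.Comb1

set_option autoImplicit false

namespace Pool.Agent.Results.MP_f2fe2b_co.EvenTreeMax

open Finset Pool.Agent.Lib.MP_f2fe2b_co

/-- Finite rooted binary trees: a leaf, or an inner vertex with two child subtrees. -/
inductive BT : Type
  | leaf : BT
  | node : BT → BT → BT

/-- The number of leaves. -/
def size : BT → ℕ
  | .leaf => 1
  | .node l r => size l + size r

/-- The leaves of a tree: a leaf of `node l r` is a leaf of `l` or a leaf of `r`. -/
def Leaf : BT → Type
  | .leaf => Unit
  | .node l r => Leaf l ⊕ Leaf r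

/-- The subtree induced by a set of leaves (`none` for the empty set): vertices with only one
child meeting the set are suppressed. -/
def induced : (T : BT) → Finset (Leaf T) → Option BT
  | .leaf, V => if V.Nonempty then some .leaf else none
  | .node l r, V =>
    match induced l (Finset.toLeft V), induced r (Finset.toRight V) with
    | some a, some b => some (.node a b)
    | some a, none => some a
    | none, b => b

/-- Root-preserving isomorphism: the two children of any vertex may be exchanged. -/
inductive Iso : BT → BT → Prop
  | leaf : Iso .leaf .leaf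
  | same {a b c d : BT} : Iso a c → Iso b d → Iso (.node a b) (.node c d)
  | swap {a b c d : BT} : Iso a d → Iso b c → Iso (.node a b) (.node c d)

/-- The even tree with `n` leaves, `n ≥ 1`. -/
def even : ℕ → BT
  | 0 => .leaf
  | 1 => .leaf
  | (n + 2) => .node (even ((n + 3) / 2)) (even ((n + 2) / 2))
  decreasing_by all_goals omega

/-- The number of sets of `size S` leaves of `T` that induce a copy of `S`. -/
noncomputable def copies (S T : BT) : ℕ :=
  {V : Finset (Leaf T) | V.card = size S ∧ ∃ U, induced T V = some U ∧ Iso U S}.ncard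

lemma size_pos : ∀ T : BT, 1 ≤ size T
  | .leaf => le_rfl
  | .node l _ => (size_pos l).trans (Nat.le_add_right _ _)

lemma size_even (n : ℕ) : 1 ≤ n → size (even n) = n := by
  induction n using Nat.strong_induction_on with
  | _ n ih =>
    intro hn
    match n, ih, hn with
    | 1, _, _ => rw [even]; rfl
    | (n + 2), ih, _ =>
      rw [even, size, ih _ (by omega) (by omega), ih _ (by omega) (by omega)]; omega

lemma Iso.size_eq {a b : BT} (h : Iso a b) : size a = size b := by
  induction h with
  | leaf => rfl
  | same _ _ h1 h2 => simp only [size, h1, h2]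
  | swap _ _ h1 h2 => simp only [size, h1, h2]; omega

@[reducible] noncomputable def fin : (T : BT) → Fintype (Leaf T)
  | .leaf => inferInstanceAs (Fintype Unit)
  | .node l r => @instFintypeSum _ _ (fin l) (fin r)

lemma induced_spec : ∀ (T : BT) (V : Finset (Leaf T)),
    (induced T V = none → V.card = 0) ∧ ∀ U, induced T V = some U → V.card = size U
  | .leaf, V => by
    unfold induced
    split_ifs with h
    · refine ⟨by simp, fun U hU => ?_⟩
      obtain rfl : BT.leaf = U := by simpa using hU
      have h1 : V.card ≤ 1 := Finset.card_le_one.2 fun a _ b _ => Subsingleton.elim (α := Unit) a b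
      have h2 := h.card_pos
      simp only [size]; omega
    · refine ⟨fun _ => ?_, by simp⟩
      simpa using h
  | .node l r, V => by
    have hl := induced_spec l (Finset.toLeft V)
    have hr := induced_spec r (Finset.toRight V)
    have hc : V.card = (Finset.toLeft V : Finset (Leaf l)).card +
        (Finset.toRight V : Finset (Leaf r)).card := (Finset.card_toLeft_add_card_toRight).symm
    unfold induced
    rcases h1 : induced l (Finset.toLeft V) with _ | a <;>
      rcases h2 : induced r (Finset.toRight V) with _ | b
    · have := hl.1 h1; have := hr.1 h2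
      exact ⟨fun _ => by omega, by simp⟩
    · have := hl.1 h1; have := hr.2 _ h2
      refine ⟨by simp, fun U hU => ?_⟩
      obtain rfl : b = U := by simpa using hU
      omega
    · have := hl.2 _ h1; have := hr.1 h2
      refine ⟨by simp, fun U hU => ?_⟩
      obtain rfl : a = U := by simpa using hU
      omega
    · have := hl.2 _ h1; have := hr.2 _ h2
      refine ⟨by simp, fun U hU => ?_⟩
      obtain rfl : BT.node a b = U := by simpa using hU
      simp only [size]; omega

open Classical in
/-- indicator of being a copy of the even tree -/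
noncomputable def io (o : Option BT) (k : ℕ) : ℝ :=
  if 1 ≤ k ∧ ∃ U, o = some U ∧ Iso U (even k) then 1 else 0

lemma io_none (k : ℕ) : io none k = 0 := by simp [io]

lemma io_zero (o : Option BT) : io o 0 = 0 := by simp [io]

lemma iso_node (a b c d : BT) : Iso (.node a b) (.node c d) ↔
    (Iso a c ∧ Iso b d) ∨ (Iso a d ∧ Iso b c) := by
  constructor
  · intro h
    cases h with
    | same h1 h2 => exact Or.inl ⟨h1, h2⟩
    | swap h1 h2 => exact Or.inr ⟨h1, h2⟩
  · rintro (⟨h1, h2⟩ | ⟨h1, h2⟩)
    · exact .same h1 h2
    · exact .swap h1 h2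

lemma io_pos {a : BT} {k : ℕ} (h : Iso a (even (k + 1))) : io (some a) (k + 1) = 1 :=
  if_pos ⟨by omega, a, rfl, h⟩

lemma io_neg {a : BT} {k : ℕ} (h : ¬ Iso a (even k)) : io (some a) k = 0 :=
  if_neg (by simp [h])

lemma io_node (a b : BT) (k : ℕ) :
    io (some (.node a b)) k = Bf (io (some a)) (io (some b)) k := by
  obtain ⟨j, rfl | rfl⟩ := parity k
  · rw [Bf_even]
    rcases j with _ | j
    · simp [io_zero]
    · have e1 : even (2 * (j + 1)) = .node (even (j + 1)) (even (j + 1)) := by
        rw [show 2 * (j + 1) = 2 * j + 2 by ring, even]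
        congr 2 <;> omega
      by_cases h1 : Iso a (even (j + 1))
      · by_cases h2 : Iso b (even (j + 1))
        · rw [io_pos h1, io_pos h2, mul_one]
          exact io_pos (k := 2 * j + 1) (by
            rw [show 2 * j + 1 + 1 = 2 * (j + 1) by ring, e1]; exact .same h1 h2)
        · rw [io_neg h2, mul_zero]
          exact io_neg (by rw [e1, iso_node]; tauto)
      · rw [io_neg h1, zero_mul]
        exact io_neg (by rw [e1, iso_node]; tauto)
  · rw [Bf_odd]
    rcases j with _ | j
    · have : ¬ Iso (.node a b) (even 1) := by
        rw [even]; intro h; cases h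
      simp [io, this]
    · have e1 : even (2 * (j + 1) + 1) = .node (even (j + 1 + 1)) (even (j + 1)) := by
        rw [show 2 * (j + 1) + 1 = (2 * j + 1) + 2 by ring, even]
        congr 2 <;> omega
      have hx : ¬ (Iso a (even (j + 1 + 1)) ∧ Iso a (even (j + 1))) := by
        rintro ⟨h1, h2⟩
        have := h1.size_eq; have := h2.size_eq
        rw [size_even _ (by omega)] at *
        omega
      by_cases h : Iso (.node a b) (even (2 * (j + 1) + 1))
      · rw [io_pos h]
        rw [e1, iso_node] at h
        rcases h with ⟨h1, h2⟩ | ⟨h1, h2⟩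
        · rw [io_pos h1, io_pos h2, io_neg (fun h3 => hx ⟨h1, h3⟩)]; ring
        · rw [io_pos h1, io_pos h2, io_neg (fun h3 => hx ⟨h3, h1⟩)]; ring
      · rw [io_neg h]
        rw [e1, iso_node, not_or, not_and_or, not_and_or] at h
        rcases h with ⟨h1 | h1, h2 | h2⟩ <;> rw [io_neg h1, io_neg h2] <;> ring

/-- the count vector -/
noncomputable def cv (T : BT) (k : ℕ) : ℝ :=
  ∑ V ∈ (@Finset.univ (Leaf T) (fin T)).powerset, io (induced T V) k

lemma cv_nonneg (T : BT) (k : ℕ) : 0 ≤ cv T k := by
  refine sum_nonneg fun V _ => ?_
  unfold io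
  split_ifs <;> norm_num

lemma induced_empty (T : BT) : induced T ∅ = none := by
  rcases h : induced T ∅ with _ | U
  · rfl
  · have := (induced_spec T ∅).2 U h
    have := size_pos U
    simp at *; omega

lemma cv_leaf : cv .leaf = e 1 := by
  funext k
  have h0 : (Finset.univ : Finset Unit).powerset = {∅, {()}} := by decide
  have h1 : cv .leaf k = io (induced .leaf ∅) k + io (induced .leaf {(() : Unit)}) k := by
    change ∑ V ∈ (Finset.univ : Finset Unit).powerset, io (induced .leaf V) k = _
    rw [h0, sum_pair (singleton_ne_empty _).symm]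
    rfl
  rw [h1, induced_empty, io_none, e_one]
  have h2 : induced .leaf {(() : Unit)} = some .leaf := by
    unfold induced; exact if_pos (singleton_nonempty _)
  rw [h2]
  match k with
  | 0 => simp [io]
  | 1 =>
    have : Iso .leaf (even 1) := by rw [even]; exact .leaf
    simp [io, this]
  | (k + 2) =>
    have : ¬ Iso .leaf (even (k + 2)) := by rw [even]; intro h; cases h
    simp [io, this]

open Classical in
lemma cv_node (l r : BT) : cv (.node l r) = Ff (cv l) (cv r) := by
  funext k
  let _i1 := fin l
  let _i2 := fin r
  have e1 : cv (.node l r) k = ∑ L1 ∈ (univ : Finset (Leaf l)).powerset,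
      ∑ L2 ∈ (univ : Finset (Leaf r)).powerset,
      ((if L2 = ∅ then io (induced l L1) k else 0) + (if L1 = ∅ then io (induced r L2) k else 0)
      + Bf (io (induced l L1)) (io (induced r L2)) k) := by
    unfold cv
    rw [← sum_product']
    refine sum_nbij' (fun V => ((Finset.toLeft V : Finset (Leaf l)),
      (Finset.toRight V : Finset (Leaf r)))) (fun p => p.1.disjSum p.2) ?_ ?_ ?_ ?_ ?_
    · intro V _; simp
    · intro p _; exact mem_powerset.2 (@subset_univ _ (fin (.node l r)) _)
    · intro V _; exact toLeft_disjSum_toRight
    · intro p _; simp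
    · intro V _
      have hl := induced_spec l (Finset.toLeft V)
      have hr := induced_spec r (Finset.toRight V)
      have n0 : io none = fun _ => 0 := funext io_none
      conv_lhs => unfold induced
      rcases h1 : induced l (Finset.toLeft V) with _ | a <;>
        rcases h2 : induced r (Finset.toRight V) with _ | b
      · simp [n0, Bf_zero_left]
      · have := card_eq_zero.1 (hl.1 h1)
        simp [n0, Bf_zero_left, this]
      · have := card_eq_zero.1 (hr.1 h2)
        simp [n0, Bf_zero_right, this]
      · have a1 := hl.2 _ h1
        have a2 := hr.2 _ h2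
        have := size_pos a
        have := size_pos b
        have b1 : (Finset.toLeft V : Finset (Leaf l)) ≠ ∅ := card_pos.1 (by omega) |>.ne_empty
        have b2 : (Finset.toRight V : Finset (Leaf r)) ≠ ∅ := card_pos.1 (by omega) |>.ne_empty
        simp [b1, b2, io_node]
  rw [e1]
  simp only [sum_add_distrib]
  rw [sum_Bf]
  unfold Ff
  congr 1
  congr 1
  · simp [cv]
  · rw [sum_comm]; simp [cv]

lemma cv_le : ∀ (T : BT) (k : ℕ), cv T k ≤ e (size T) k
  | .leaf, k => by rw [cv_leaf]; rfl
  | .node l r, k => by
    rw [cv_node]
    exact (Ff_mono (cv_nonneg _) (cv_nonneg _) (cv_le l) (cv_le r) k).trans (main_num _ _ _)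

lemma cv_even (n : ℕ) : 1 ≤ n → cv (even n) = e n := by
  induction n using Nat.strong_induction_on with
  | _ n ih =>
    intro hn
    match n, ih, hn with
    | 1, _, _ => rw [even, cv_leaf]
    | (n + 2), ih, _ =>
      rw [even, cv_node, ih _ (by omega) (by omega), ih _ (by omega) (by omega), Ff_comm, e]

lemma copies_eq (T : BT) (k : ℕ) (hk : 1 ≤ k) : (copies (even k) T : ℝ) = cv T k := by
  classical
  let _inst := fin T
  unfold copies cv io
  rw [sum_ite, sum_const_zero, add_zero, sum_const, nsmul_eq_mul, mul_one, ← Set.ncard_coe_finset]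
  congr 2
  ext V
  simp only [Set.mem_ofPred_eq, coe_filter, mem_powerset, subset_univ, true_and, hk]
  refine ⟨fun h => h.2, fun h => ⟨?_, h⟩⟩
  obtain ⟨U, h1, h2⟩ := h
  rw [(induced_spec T V).2 U h1, h2.size_eq]

/-- Among all binary trees with `n` leaves, the even tree
has the largest number of leaf sets inducing a copy of the even tree with `k` leaves. -/
theorem result (k n : ℕ) (hk : 1 ≤ k) (hkn : k ≤ n) (T : BT) (hT : size T = n) :
    copies (even k) T ≤ copies (even k) (even n) := by
  have h1 := cv_le T k
  rw [hT, ← cv_even n (by omega), ← copies_eq _ _ hk, ← copies_eq _ _ hk] at h1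
  exact_mod_cast h1

end Pool.Agent.Results.MP_f2fe2b_co.EvenTreeMax
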